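import Mathlib
import Pool.Agent.H49.M4.FinB

open Finset

namespace Pool.Agent.H49.Old.FourPlus

/-- There is an absolute constant `K` such that for all `k ≥ 1` and all `n ≥ 4k` whose residue
modulo `k` is at most `k / K`, the least number of strictly positive `k`-subsums of `n` real
numbers with strictly positive total is `C(n-1, k-1)`. -/
theorem result : ∃ K : ℕ, 1 ≤ K ∧ ∀ n k : ℕ, 1 ≤ k → 4 * k ≤ n → K * (n % k) ≤ k →
    IsLeast {v : ℕ | ∃ x : Fin n → ℝ, 0 < ∑ i, x i ∧
      ((Finset.univ.powersetCard k).filter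
        (fun S : Finset (Fin n) => 0 < ∑ i ∈ S, x i)).card = v}
      ((n - 1).choose (k - 1)) := by
  obtain ⟨K, hK, h⟩ := Pool.Agent.H49.M4.all4
  exact ⟨K, hK, fun n k hk hn hr =>
    Pool.Agent.H49.M4.least n k hk (by omega) (h n k hk hn hr)⟩

end Pool.Agent.H49.Old.FourPlus
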